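import Pool.Agent.W114.HL.App
import Pool.Agent.W114.PQ.Des

set_option autoImplicit false

/-!
# Project HL: difference sets in arbitrary groups pass the tests
-/

namespace Pool.Agent.W114.HL

open Finset Filter Topology MulAction
open Pool.Agent.H951R4.OD (ch PI Ex repl design_facts)
open Pool.Agent.H634R3.PPC Pool.Agent.H634R3.WG.Lam Pool.Agent.H177R2.SD
open Pool.Agent.W114.PQ (ex_split design_of_ds)
open Pool.Agent.H771R2.Lander

theorem design_order {v k lam : ℕ} (hd : IsSymmetricDesign v k lam) (hk2 : 2 ≤ k)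
    (hlam : 1 ≤ lam) : lam < k ∧ k * k = lam * (v - 1) + k ∧ (Even v → IsSquare (k - lam)) := by
  obtain ⟨hkv, r, B, h1, h2, h3⟩ := hd
  have hv : 2 ≤ v := by omega
  exact ⟨(design_facts hv hlam hkv h1 h3).1, (repl v k lam hv hlam B h1 h3).2,
    fun he => schutz_design hv hlam hkv h1 h3 he⟩

theorem kv2 {v k lam p : ℕ} (hkv : k < v) (hk2 : 2 ≤ k) (hcount : k * k = lam * (v - 1) + k)
    (hp : p.Prime) (h3 : p ∣ k - lam) : k + 2 ≤ v := by
  by_contra hc
  have h1 : v = k + 1 := by omega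
  rw [h1, Nat.add_sub_cancel] at hcount
  have h2 : k = lam + 1 := by
    have h3 : k * k = (lam + 1) * k := by rw [hcount]; ring
    exact Nat.eq_of_mul_eq_mul_right (by omega) h3
  rw [h2] at h3
  simp only [Nat.add_sub_cancel_left, Nat.dvd_one] at h3
  exact hp.one_lt.ne' h3

/-- **difference sets in arbitrary groups** -/
theorem pass_ds {G : Type} [Group G] [Fintype G] [DecidableEq G] (D : Finset G) {k lam : ℕ}
    (hk : D.card = k) (hk2 : 2 ≤ k) (hkv : k < Fintype.card G) (hlam : 1 ≤ lam)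
    (hl : ∀ g : G, g ≠ 1 → ((D ×ˢ D).filter (fun p : G × G => p.1 * p.2⁻¹ = g)).card = lam) :
    lam < k ∧ Pass (datH lam (sgn (Fintype.card G))) (k - lam) := by
  have hd : IsSymmetricDesign (Fintype.card G) k lam :=
    design_of_ds D rfl hk hkv (by
      intro g hg
      rw [← hl g hg]
      congr!)
  obtain ⟨hlk, hcount, heven⟩ := design_order hd hk2 hlam
  set v := Fintype.card G with hv
  refine ⟨hlk, ?_, ?_⟩
  · intro r q j hE hq hqc hT hj
    have hodd : Odd v := by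
      by_contra he
      rw [Nat.not_odd_iff_even] at he
      exact not_square_of_ex hE (heven he)
    have hsp := ex_split hE
    have hql : ¬ q ∣ lam := fun h1 =>
      hqc (dvd_mul_of_dvd_left (dvd_mul_of_dvd_right h1 2) _)
    obtain ⟨hT1, hT2⟩ := hT
    rw [poly_val (by omega) hlk.le hlam hcount] at hT1
    have hqv : q ∣ v := ((Nat.Prime.dvd_mul hq).1 hT1).resolve_left hql
    refine no_difference_set D k lam hk hl hodd hq hqv hE.1 hj (a := 1) odd_one
      (u := (((k - lam) / r : ℕ) : ℤ)) ?_ ?_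
    · intro h
      exact hsp.2 (by exact_mod_cast h)
    · have h1 : ((k - lam : ℕ) : ℤ) = (r : ℤ) ^ 1 * (((k - lam) / r : ℕ) : ℤ) := by
        exact_mod_cast hsp.1
      rw [← h1, Nat.cast_sub hlk.le]
  · intro _ p hE
    obtain ⟨hp2, hpl⟩ := ne_two_of_ex hE
    exact brc_ch hd hk2 (kv2 hkv hk2 hcount hE.1 hE.2.2.1) hE.1 hp2 hE.2.2.1 hE.2.2.2 hpl

theorem ds_app (main : S_MAIN) (dh : S_DH) {lam : ℕ} (hl : 2 ≤ lam) (hsq : ¬ IsSquare lam)
    (ε : ℝ) (hε : 0 < ε) :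
    ∃ C : ℝ, 0 < C ∧ ∀ X : ℕ, 3 ≤ X →
      ({k : ℕ | k ≤ X ∧ ∃ (G : Type) (_ : Group G) (_ : Fintype G) (_ : DecidableEq G)
        (D : Finset G), 2 ≤ k ∧ D.card = k ∧ k < Fintype.card G ∧
          ∀ g : G, g ≠ 1 → ((D ×ˢ D).filter (fun p : G × G => p.1 * p.2⁻¹ = g)).card =
            lam}.ncard : ℝ) ≤
      C * X * (Real.log X) ^ (ε - 9 / 8) := by
  have := count_union (A := {k : ℕ | ∃ (G : Type) (_ : Group G) (_ : Fintype G)
        (_ : DecidableEq G) (D : Finset G), 2 ≤ k ∧ D.card = k ∧ k < Fintype.card G ∧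
          ∀ g : G, g ≠ 1 → ((D ×ˢ D).filter (fun p : G × G => p.1 * p.2⁻¹ = g)).card =
            lam}) main dh hl hsq ?_ ε hε
  · exact this
  · rintro k ⟨G, i1, i2, i3, D, hk2, hk, hkv, hD⟩
    obtain ⟨h1, h2⟩ := pass_ds D hk hk2 hkv (by omega : 1 ≤ lam) hD
    exact ⟨h1, pass_sgn h2⟩

/-! ## Convergence of the sum of the reciprocals -/

/-- a set with `C X (log X)^(-a)` elements up to `X`, `a > 1`, has a convergent sum of reciprocals -/
theorem summable_of_count {A : Set ℕ} {C a : ℝ} (ha : 1 < a)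
    (h : ∀ X : ℕ, 3 ≤ X → ({k : ℕ | k ≤ X ∧ k ∈ A}.ncard : ℝ) ≤ C * X * (Real.log X) ^ (-a)) :
    Summable (A.indicator (fun k : ℕ => 1 / (k : ℝ))) := by
  classical
  have hC : 0 ≤ C := by
    have h3 := h 3 le_rfl
    have h4 : (0 : ℝ) ≤ ({k : ℕ | k ≤ 3 ∧ k ∈ A}.ncard : ℝ) := Nat.cast_nonneg _
    have h5 : (0 : ℝ) < ((3 : ℕ) : ℝ) * (Real.log (3 : ℕ)) ^ (-a) := by
      have : 0 < Real.log (3 : ℕ) := Real.log_pos (by norm_num)
      positivity
    by_contra hc
    push Not at hc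
    have h6 : C * ((3 : ℕ) : ℝ) * (Real.log (3 : ℕ)) ^ (-a) < 0 := by
      rw [mul_assoc]
      exact mul_neg_of_neg_of_pos hc h5
    linarith
  have hnn : ∀ k : ℕ, 0 ≤ A.indicator (fun k : ℕ => 1 / (k : ℝ)) k := fun k =>
    Set.indicator_nonneg (fun k _ => by positivity) k
  -- the bound for the blocks
  have hblock : ∀ i : ℕ, 2 ≤ i → ∑ k ∈ Finset.Ico (2 ^ i) (2 ^ (i + 1)),
      A.indicator (fun k : ℕ => 1 / (k : ℝ)) k ≤ 2 * C * (Real.log 2) ^ (-a) * (i : ℝ) ^ (-a) := by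
    intro i hi
    have hi0 : (0 : ℝ) < i := by positivity
    have hl2 : 0 < Real.log 2 := Real.log_pos (by norm_num)
    have h1 : ∑ k ∈ Finset.Ico (2 ^ i) (2 ^ (i + 1)), A.indicator (fun k : ℕ => 1 / (k : ℝ)) k ≤
        ∑ k ∈ (Finset.Ico (2 ^ i) (2 ^ (i + 1))).filter (fun k => k ∈ A), 1 / (2 : ℝ) ^ i := by
      rw [Finset.sum_filter]
      refine Finset.sum_le_sum fun k hk => ?_
      rw [Finset.mem_Ico] at hk
      by_cases hkA : k ∈ A
      · rw [Set.indicator_of_mem hkA, if_pos hkA]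
        have h2 : (2 : ℝ) ^ i ≤ k := by exact_mod_cast hk.1
        exact one_div_le_one_div_of_le (by positivity) h2
      · rw [Set.indicator_of_notMem hkA, if_neg hkA]
    have h2 : (((Finset.Ico (2 ^ i) (2 ^ (i + 1))).filter (fun k => k ∈ A)).card : ℝ) ≤
        C * ((2 ^ (i + 1) : ℕ) : ℝ) * (Real.log ((2 ^ (i + 1) : ℕ) : ℝ)) ^ (-a) := by
      refine le_trans ?_ (h (2 ^ (i + 1)) ?_)
      · have h3 : (((Finset.Ico (2 ^ i) (2 ^ (i + 1))).filter (fun k => k ∈ A) : Finset ℕ) :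
            Set ℕ) ⊆ {k : ℕ | k ≤ 2 ^ (i + 1) ∧ k ∈ A} := by
          intro k hk
          rw [Finset.mem_coe, Finset.mem_filter, Finset.mem_Ico] at hk
          exact ⟨hk.1.2.le, hk.2⟩
        have h4 := Set.ncard_le_ncard h3 ((Set.finite_Iic (2 ^ (i + 1))).subset
          (fun k hk => hk.1))
        rw [Set.ncard_coe_finset] at h4
        exact_mod_cast h4
      · calc 3 ≤ 2 ^ 2 := by norm_num
          _ ≤ 2 ^ (i + 1) := Nat.pow_le_pow_right (by norm_num) (by omega)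
    have h3 : (Real.log ((2 ^ (i + 1) : ℕ) : ℝ)) ^ (-a) ≤ (Real.log 2) ^ (-a) * (i : ℝ) ^ (-a) := by
      rw [← Real.mul_rpow hl2.le hi0.le]
      apply Real.rpow_le_rpow_of_nonpos (by positivity) ?_ (by linarith)
      rw [Nat.cast_pow, Real.log_pow]
      push_cast
      nlinarith
    calc _ ≤ _ := h1
      _ = (((Finset.Ico (2 ^ i) (2 ^ (i + 1))).filter (fun k => k ∈ A)).card : ℝ) *
          (1 / (2 : ℝ) ^ i) := by rw [Finset.sum_const, nsmul_eq_mul]
      _ ≤ (C * ((2 ^ (i + 1) : ℕ) : ℝ) * (Real.log ((2 ^ (i + 1) : ℕ) : ℝ)) ^ (-a)) *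
          (1 / (2 : ℝ) ^ i) := by gcongr
      _ ≤ (C * ((2 ^ (i + 1) : ℕ) : ℝ) * ((Real.log 2) ^ (-a) * (i : ℝ) ^ (-a))) *
          (1 / (2 : ℝ) ^ i) := by gcongr
      _ = _ := by
          push_cast
          rw [pow_succ]
          field_simp
  have hser : Summable (fun i : ℕ => 2 * C * (Real.log 2) ^ (-a) * (i : ℝ) ^ (-a)) := by
    apply Summable.mul_left
    exact Real.summable_nat_rpow.2 (by linarith)
  set S := ∑' i : ℕ, 2 * C * (Real.log 2) ^ (-a) * (i : ℝ) ^ (-a) with hS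
  set c := ∑ k ∈ Finset.range 4, A.indicator (fun k : ℕ => 1 / (k : ℝ)) k with hc
  have hterm : ∀ i : ℕ, 0 ≤ 2 * C * (Real.log 2) ^ (-a) * (i : ℝ) ^ (-a) := fun i => by
    have hl2 : 0 < Real.log 2 := Real.log_pos (by norm_num)
    positivity
  have hpow : ∀ m : ℕ, 2 ≤ m → ∑ k ∈ Finset.range (2 ^ m),
      A.indicator (fun k : ℕ => 1 / (k : ℝ)) k ≤ c + ∑ i ∈ Finset.range m,
        2 * C * (Real.log 2) ^ (-a) * (i : ℝ) ^ (-a) := by
    intro m hm
    induction m, hm using Nat.le_induction with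
    | base =>
      have : 0 ≤ ∑ i ∈ Finset.range 2, 2 * C * (Real.log 2) ^ (-a) * (i : ℝ) ^ (-a) :=
        Finset.sum_nonneg fun i _ => hterm i
      have e4 : (2 : ℕ) ^ 2 = 4 := by norm_num
      rw [e4]
      linarith
    | succ m hm ih =>
      rw [Finset.sum_range_succ, ← add_assoc]
      have h1 := hblock m hm
      rw [← Finset.sum_range_add_sum_Ico _ (Nat.pow_le_pow_right (by norm_num : 0 < 2)
        (Nat.le_succ m))]
      exact add_le_add ih h1
  refine summable_of_sum_range_le (c := c + S) hnn fun n => ?_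
  have h1 : n ≤ 2 ^ (n + 2) := (Nat.lt_two_pow_self (n := n)).le.trans
    (Nat.pow_le_pow_right (by norm_num) (by omega))
  calc _ ≤ ∑ k ∈ Finset.range (2 ^ (n + 2)), A.indicator (fun k : ℕ => 1 / (k : ℝ)) k :=
        Finset.sum_le_sum_of_subset_of_nonneg (Finset.range_mono h1) (fun k _ _ => hnn k)
    _ ≤ _ := hpow (n + 2) (by omega)
    _ ≤ c + S := by
        gcongr
        exact hser.sum_le_tsum _ (fun i _ => hterm i)

end Pool.Agent.W114.HL
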