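import Pool.Agent.W114.PQ.Full
import Pool.Agent.W114.HL.AppDS
import Pool.Agent.W806.HL.MN
import Pool.Agent.W688.HL.BK
import Pool.Agent.W395.HL.CA
import Pool.Agent.W240.HL.A
import Pool.Agent.W839.HL.HLCB
import Pool.Agent.W340.HL.B
import Pool.Agent.W948.HL.CC
import Pool.Agent.W305.HL.C1
import Pool.Agent.W554.HL.CP
import Pool.Agent.W348.HL.C2
import Pool.Agent.W563.HL.E
import Pool.Agent.W308.HL.Main
import Pool.Agent.W230.HLDM

set_option autoImplicit false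

/-!
# The main theorem of project HL
-/

namespace Pool.Agent.W114.HL

theorem mn : S_MN := Pool.Agent.W806.HL.mn
theorem bk : S_BK := Pool.Agent.W688.HL.bk
theorem b1 : S_B1 := Pool.Agent.W688.HL.b1
theorem ca : S_CA := Pool.Agent.W395.HL.ca PQ.sv mn bk
theorem a : S_A := Pool.Agent.W240.HL.a ca
theorem cb : S_CB := Pool.Agent.W839.HL.CB.cb PQ.sv mn
theorem b : S_B := Pool.Agent.W340.HL.b cb PQ.l2
theorem cc : S_CC := Pool.Agent.W948.HL.CC.cc PQ.sv mn b1
theorem c1 : S_C1 := Pool.Agent.W305.HL.c1 cc PQ.gs PQ.gd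
theorem cp : S_CP := Pool.Agent.W554.HL.cp PQ.sv mn
theorem c2 : S_C2 := Pool.Agent.W348.HL.c2 cp PQ.gs PQ.gd
theorem e : S_E := Pool.Agent.W563.HL.E.e PQ.gs PQ.gd
theorem main : S_MAIN := Pool.Agent.W308.HL.main a b c1 c2 e
theorem dm : S_DM := Pool.Agent.W230.HL.dm

end Pool.Agent.W114.HL
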