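import Pool.Agent.W114.HL.Stm
import Pool.Agent.W114.PQ.App
import Pool.Agent.H634R3.WG.Lam

set_option autoImplicit false

/-!
# Project HL: symmetric designs pass the tests
-/

namespace Pool.Agent.W114.HL

open Finset Filter Topology MulAction
open Pool.Agent.H951R4.OD (ch PI Ex repl design_facts)
open Pool.Agent.H634R3.PPC Pool.Agent.H634R3.WG.Lam Pool.Agent.H177R2.SD
open Pool.Agent.W114.PQ (ex_split)

/-- the sign of a number of points -/
def sgn (v : ℕ) : ℤ := if v % 4 = 3 then -1 else 1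

theorem sgn_cases (v : ℕ) : sgn v = 1 ∨ sgn v = -1 := by
  unfold sgn
  split_ifs <;> simp

/-- the value of the polynomial -/
theorem poly_val {v k lam : ℕ} (hv : 1 ≤ v) (hlk : lam ≤ k) (hlam : 1 ≤ lam)
    (hc : k * k = lam * (v - 1) + k) :
    (k - lam) ^ 2 + (2 * lam - 1) * (k - lam) + lam ^ 2 = lam * v := by
  obtain ⟨n, rfl⟩ : ∃ n, k = n + lam := ⟨k - lam, by omega⟩
  obtain ⟨l, rfl⟩ : ∃ l, lam = l + 1 := ⟨lam - 1, by omega⟩
  obtain ⟨w, rfl⟩ : ∃ w, v = w + 1 := ⟨v - 1, by omega⟩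
  simp only [Nat.add_sub_cancel] at hc ⊢
  have h1 : 2 * (l + 1) - 1 = 2 * l + 1 := by omega
  rw [h1]
  nlinarith

/-- the Bruck-Ryser-Chowla condition for an exact prime divisor of the order -/
theorem brc_ch {v k lam p : ℕ} (hd : IsSymmetricDesign v k lam) (hk : 2 ≤ k) (hkv : k + 2 ≤ v)
    (hp : p.Prime) (hp2 : p ≠ 2) (h1 : p ∣ k - lam) (h2 : ¬ p ^ 2 ∣ k - lam) (h3 : ¬ p ∣ lam) :
    ch (sgn v * (lam : ℤ)) p ≠ -1 := by
  obtain ⟨hodd, hsq⟩ := brc_local hd hk hkv hp hp2 h1 h2 h3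
  have : Fact p.Prime := ⟨hp⟩
  have hs : ((-1 : ℤ)) ^ ((v - 1) / 2) = sgn v := by
    unfold sgn
    split_ifs with h
    · have : Odd ((v - 1) / 2) := by rw [Nat.odd_iff]; omega
      exact this.neg_one_pow
    · have : Even ((v - 1) / 2) := by rw [Nat.even_iff]; omega
      exact this.neg_one_pow
  rw [hs] at hsq
  have hpo : p % 2 = 1 := by
    rcases hp.eq_two_or_odd with h | h
    · exact absurd h hp2
    · exact h
  unfold ch
  rw [if_pos hpo, ← jacobiSym.legendreSym.to_jacobiSym]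
  have hne : ((sgn v * (lam : ℤ) : ℤ) : ZMod p) ≠ 0 := by
    rw [Ne, ZMod.intCast_zmod_eq_zero_iff_dvd]
    intro h
    rcases sgn_cases v with h4 | h4
    · rw [h4, one_mul] at h
      exact h3 (by exact_mod_cast h)
    · rw [h4, neg_one_mul, dvd_neg] at h
      exact h3 (by exact_mod_cast h)
  rw [(legendreSym.eq_one_iff p hne).2 hsq]
  norm_num

theorem ne_two_of_ex {lam n p : ℕ} {s : ℤ} (h : Ex (datH lam s).c0 n p) : p ≠ 2 ∧ ¬ p ∣ lam := by
  have hc : (datH lam s).c0 = 2 * lam * (4 * lam - 1) := rfl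
  obtain ⟨hp, hpc, -, -⟩ := h
  rw [hc] at hpc
  refine ⟨?_, ?_⟩
  · rintro rfl
    exact hpc (dvd_mul_of_dvd_left (dvd_mul_right 2 lam) _)
  · intro h
    exact hpc (dvd_mul_of_dvd_left (dvd_mul_of_dvd_right h 2) _)

theorem not_square_of_ex {c0 n p : ℕ} (h : Ex c0 n p) : ¬ IsSquare n := by
  rintro ⟨m, rfl⟩
  obtain ⟨hp, -, h1, h2⟩ := h
  have h3 : p ∣ m := by
    rcases (Nat.Prime.dvd_mul hp).1 h1 with h | h <;> exact h
  apply h2
  rw [pow_two]
  exact mul_dvd_mul h3 h3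

/-- **solvable point-transitive groups** -/
theorem pass_solv {v k lam : ℕ} {B : Fin v → Finset (Fin v)} {H : Subgroup (Equiv.Perm (Fin v))}
    (h : TransDesign v k lam B H) (hk2 : 2 ≤ k) (hlam : 1 ≤ lam) :
    Pass (datH lam (sgn v)) (k - lam) := by
  classical
  have hv : 2 ≤ v := by
    have := h.kv
    omega
  obtain ⟨hlk, -, -⟩ := design_facts hv hlam h.kv h.size h.pair
  obtain ⟨hrep, hcount⟩ := repl v k lam hv hlam B h.size h.pair
  have hinj := blocks_inj hv hlam h.kv h.size h.pair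
  have hoddv : ∀ p, Ex (datH lam (sgn v)).c0 (k - lam) p → Odd v := by
    intro p hE
    by_contra he
    rw [Nat.not_odd_iff_even] at he
    exact not_square_of_ex hE (schutz_design hv hlam h.kv h.size h.pair he)
  refine ⟨?_, ?_⟩
  · intro r q j hE hq hqc hT hj
    have hodd := hoddv r hE
    have hsp := ex_split hE
    have hq2 : q ≠ 2 := by
      rintro rfl
      exact hqc (dvd_mul_of_dvd_left (dvd_mul_right 2 lam) _)
    have hq3 : 2 < q := lt_of_le_of_ne hq.two_le (Ne.symm hq2)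
    have hql : ¬ q ∣ lam := fun h1 =>
      hqc (dvd_mul_of_dvd_left (dvd_mul_of_dvd_right h1 2) _)
    obtain ⟨hT1, hT2⟩ := hT
    rw [poly_val (by omega) hlk.le hlam hcount] at hT1 hT2
    have hqv : q ∣ v := ((Nat.Prime.dvd_mul hq).1 hT1).resolve_left hql
    have hqv2 : ¬ q ^ 2 ∣ v := fun h1 => hT2 (dvd_mul_of_dvd_right h1 _)
    have : Fintype (pairs B H) := Fintype.ofFinite _
    have hsolv : Group.IsSolvable (pairs B H) := by
      have := h.solv
      let φ : pairs B H →* H :=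
        { toFun := fun g => ⟨g.1.1, g.2.1⟩
          map_one' := rfl
          map_mul' := fun a b => rfl }
      have hφ : Function.Injective φ := by
        intro a b hab
        have h1 : a.1.1 = b.1.1 := congrArg Subtype.val hab
        apply Subtype.ext
        refine Prod.ext h1 ?_
        ext1 i
        apply hinj
        ext x
        have h2 := a.2.2 (a.1.1.symm x) i
        have h3 := b.2.2 (b.1.1.symm x) i
        rw [Equiv.apply_symm_apply] at h2 h3
        rw [h2, h3, h1]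
      exact Group.isSolvable_of_isSolvable_injective hφ
    refine solv_test hsolv (des_blk hv hlam h.kv h.size h.pair) ?_ ?_ hq hq3 ?_ ?_ ?_ hE.1
      (j := j) hj odd_one (u := (k - lam) / r) hsp.2 hsp.1
    · intro g p b
      exact g.2.2 p b.i
    · intro x y
      obtain ⟨g, hg, hgx⟩ := h.trans x y
      choose τ hτ using h.aut g hg
      have hτi : Function.Injective τ := by
        intro i j hij
        apply hinj
        have h1 := hτ i
        rw [hij, ← hτ j] at h1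
        exact Finset.image_injective g.injective h1
      refine ⟨⟨(g, Equiv.ofBijective τ (Finite.injective_iff_bijective.1 hτi)), hg, ?_⟩, hgx⟩
      intro z i
      show g z ∈ B (τ i) ↔ z ∈ B i
      rw [← hτ i, Finset.mem_image]
      constructor
      · rintro ⟨w, hw, hwz⟩
        rwa [← g.injective hwz]
      · intro hz
        exact ⟨z, hz, rfl⟩
    · rw [Fintype.card_fin]
      exact hqv
    · rw [Fintype.card_fin]
      exact hqv2
    · rw [Fintype.card_fin]
      exact hodd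
  · intro _ p hE
    obtain ⟨hp2, hpl⟩ := ne_two_of_ex hE
    have hd : IsSymmetricDesign v k lam := ⟨h.kv, k, B, h.size, hrep, h.pair⟩
    have hkv2 : k + 2 ≤ v := by
      by_contra hc
      have h1 : v = k + 1 := by
        have := h.kv
        omega
      rw [h1, Nat.add_sub_cancel] at hcount
      have h2 : k = lam + 1 := by
        have h3 : k * k = (lam + 1) * k := by rw [hcount]; ring
        exact Nat.eq_of_mul_eq_mul_right (by omega) h3
      have h3 := hE.2.2.1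
      rw [h2] at h3
      simp only [Nat.add_sub_cancel_left, Nat.dvd_one] at h3
      exact hE.1.one_lt.ne' h3
    exact brc_ch hd hk2 hkv2 hE.1 hp2 hE.2.2.1 hE.2.2.2 hpl

/-- two bounds give a third -/
theorem count_union {A : Set ℕ} {lam : ℕ} (main : S_MAIN) (dh : S_DH) (hl : 2 ≤ lam)
    (hsq : ¬ IsSquare lam) (hA : ∀ k ∈ A, lam < k ∧ (Pass (datH lam 1) (k - lam) ∨
      Pass (datH lam (-1)) (k - lam))) (ε : ℝ) (hε : 0 < ε) :
    ∃ C : ℝ, 0 < C ∧ ∀ X : ℕ, 3 ≤ X →
      ({k : ℕ | k ≤ X ∧ k ∈ A}.ncard : ℝ) ≤ C * X * (Real.log X) ^ (ε - 9 / 8) := by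
  have hx : ∀ s : ℤ, (3 : ℝ) / 2 ≤ (datH lam s).τ + (datH lam s).β / 2 := by
    intro s
    have h1 : (datH lam s).τ = 1 := rfl
    have h2 : (datH lam s).β = 1 := rfl
    rw [h1, h2]
    norm_num
  obtain ⟨C1, hC1, H1⟩ := main (datH lam 1) (dh lam hl hsq 1 (Or.inl rfl)) (hx 1) ε hε
  obtain ⟨C2, hC2, H2⟩ := main (datH lam (-1)) (dh lam hl hsq (-1) (Or.inr rfl)) (hx _) ε hε
  refine ⟨C1 + C2, by positivity, fun X hX => ?_⟩
  have hfin : ∀ s : ℤ, {n : ℕ | 1 ≤ n ∧ n ≤ X ∧ Pass (datH lam s) n}.Finite := fun s =>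
    (Set.finite_Iic X).subset fun n hn => hn.2.1
  have h1 := Set.ncard_le_ncard_of_injOn (s := {k : ℕ | k ≤ X ∧ k ∈ A})
    (t := {n : ℕ | 1 ≤ n ∧ n ≤ X ∧ Pass (datH lam 1) n} ∪
      {n : ℕ | 1 ≤ n ∧ n ≤ X ∧ Pass (datH lam (-1)) n})
    (fun k => k - lam)
    (fun k hk => by
      obtain ⟨hkX, hk2⟩ := hk
      obtain ⟨h1, h2⟩ := hA k hk2
      rcases h2 with h2 | h2
      · left
        exact ⟨by omega, by omega, h2⟩
      · right
        exact ⟨by omega, by omega, h2⟩)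
    (fun a ha b hb hab => by
      obtain ⟨h1, -⟩ := hA a ha.2
      obtain ⟨h2, -⟩ := hA b hb.2
      simp only at hab
      omega) ((hfin 1).union (hfin (-1)))
  have h2 := h1.trans (Set.ncard_union_le _ _)
  have h3 : (({k : ℕ | k ≤ X ∧ k ∈ A}.ncard : ℕ) : ℝ) ≤
      ({n : ℕ | 1 ≤ n ∧ n ≤ X ∧ Pass (datH lam 1) n}.ncard : ℝ) +
      ({n : ℕ | 1 ≤ n ∧ n ≤ X ∧ Pass (datH lam (-1)) n}.ncard : ℝ) := by exact_mod_cast h2
  have h4 := H1 X hX
  have h5 := H2 X hX
  calc _ ≤ _ := h3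
    _ ≤ _ := add_le_add h4 h5
    _ = _ := by ring

theorem pass_sgn {lam v n : ℕ} (h : Pass (datH lam (sgn v)) n) :
    Pass (datH lam 1) n ∨ Pass (datH lam (-1)) n := by
  rcases sgn_cases v with h1 | h1
  · left
    rwa [h1] at h
  · right
    rwa [h1] at h

theorem solv_app (main : S_MAIN) (dh : S_DH) {lam : ℕ} (hl : 2 ≤ lam) (hsq : ¬ IsSquare lam)
    (ε : ℝ) (hε : 0 < ε) :
    ∃ C : ℝ, 0 < C ∧ ∀ X : ℕ, 3 ≤ X →
      ({k : ℕ | k ≤ X ∧ ∃ (v : ℕ) (B : Fin v → Finset (Fin v))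
        (H : Subgroup (Equiv.Perm (Fin v))), 2 ≤ k ∧ TransDesign v k lam B H}.ncard : ℝ) ≤
      C * X * (Real.log X) ^ (ε - 9 / 8) := by
  have := count_union (A := {k : ℕ | ∃ (v : ℕ) (B : Fin v → Finset (Fin v))
        (H : Subgroup (Equiv.Perm (Fin v))), 2 ≤ k ∧ TransDesign v k lam B H}) main dh hl hsq ?_ ε hε
  · exact this
  · rintro k ⟨v, B, H, hk2, hd⟩
    have hv : 2 ≤ v := by
      have := hd.kv
      omega
    exact ⟨(design_facts hv (by omega) hd.kv hd.size hd.pair).1,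
      pass_sgn (pass_solv hd hk2 (by omega))⟩

end Pool.Agent.W114.HL
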