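import Mathlib
import Pool.Agent.W650.HL.Stm

/-! Project HL (MP_66e4ee_co): the two Jensen inequalities (helper114). -/

set_option autoImplicit false

namespace Pool.W114.HLJ

open Finset Pool.W650.HL

variable {r : ℕ}

theorem one_sub_pp {a : Fin r → ℝ} {lam : ℝ} (g : Good a lam) (i : Fin r) :
    1 - pp a lam i = lam / (lam + a i) := by
  have h1 := g.pos i
  have h2 := g.lam_pos
  have h3 : lam + a i ≠ 0 := by positivity
  unfold pp
  field_simp
  ring

theorem phi_pos {a : Fin r → ℝ} {lam : ℝ} (g : Good a lam) (i : Fin r) :
    0 < phi a lam i := by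
  have h1 := g.pos i
  have h2 := g.lam_pos
  unfold phi
  positivity

theorem phi_mul {a : Fin r → ℝ} {lam : ℝ} (g : Good a lam) (i : Fin r) :
    (1 - pp a lam i) * phi a lam i = 1 := by
  have h1 := g.pos i
  have h2 := g.lam_pos
  have h3 : lam + a i ≠ 0 := by positivity
  rw [one_sub_pp g]
  unfold phi
  field_simp

theorem lam_pp_phi {a : Fin r → ℝ} {lam : ℝ} (g : Good a lam) (i : Fin r) :
    lam * (pp a lam i * phi a lam i) = a i := by
  have h1 := g.pos i
  have h2 := g.lam_pos
  have h3 : lam + a i ≠ 0 := by positivity
  unfold pp phi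
  field_simp

theorem sum_pp {a : Fin r → ℝ} {lam : ℝ} (g : Good a lam) : ∑ i, pp a lam i = 1 := g.eqn

theorem Mop_eq (a f : Fin r → ℝ) (i : Fin r) :
    Mop a f i = ∑ j ∈ univ.erase i, a j * f j := by
  unfold Mop
  rw [← Finset.add_sum_erase univ (fun j => a j * f j) (mem_univ i)]
  ring

theorem jen (h : MFACTS) : JEN := by
  intro r a lam g f hf
  obtain ⟨hW, hpp, hm, hms, -⟩ := h r a lam g
  have hlam := g.lam_pos
  have hpos : ∀ i, 0 < Mop a f i := by
    intro i
    rw [Mop_eq]
    apply Finset.sum_pos
    · intro j _
      exact mul_pos (g.pos j) (hf j)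
    · by_contra hne
      rw [Finset.not_nonempty_iff_eq_empty] at hne
      have h1 := sum_pp g
      rw [← Finset.add_sum_erase univ _ (mem_univ i), hne, Finset.sum_empty] at h1
      have := (hpp i).2.1
      linarith
  refine ⟨hpos, ?_⟩
  -- pointwise Jensen
  set gg : Fin r → ℝ := fun j => Real.log (phi a lam j) + Real.log (f j) with hgg
  set G : ℝ := ∑ j, pp a lam j * gg j with hG
  have hpt : ∀ i, phi a lam i * (G - pp a lam i * gg i)
      ≤ Real.log (phi a lam i) - Real.log lam + Real.log (Mop a f i) := by
    intro i
    have hJ := strictConcaveOn_log_Ioi.concaveOn.le_map_sum (t := univ.erase i)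
      (w := fun j => phi a lam i * pp a lam j) (p := fun j => phi a lam j * f j)
      (fun j _ => (mul_pos (phi_pos g i) (hpp j).1).le)
      (by
        rw [← Finset.mul_sum]
        have h1 := sum_pp g
        rw [← Finset.add_sum_erase univ _ (mem_univ i)] at h1
        have h2 : ∑ j ∈ univ.erase i, pp a lam j = 1 - pp a lam i := by linarith
        rw [h2, mul_comm]
        exact phi_mul g i)
      (fun j _ => Set.mem_Ioi.mpr (mul_pos (phi_pos g j) (hf j)))
    simp only [smul_eq_mul] at hJ
    have e1 : ∑ j ∈ univ.erase i, phi a lam i * pp a lam j * Real.log (phi a lam j * f j)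
        = phi a lam i * (G - pp a lam i * gg i) := by
      have h3 : ∑ j ∈ univ.erase i, pp a lam j * gg j = G - pp a lam i * gg i := by
        rw [hG, ← Finset.add_sum_erase univ _ (mem_univ i)]
        ring
      rw [← h3, Finset.mul_sum]
      apply Finset.sum_congr rfl
      intro j _
      rw [Real.log_mul (phi_pos g j).ne' (hf j).ne', mul_assoc]
    have e2 : ∑ j ∈ univ.erase i, phi a lam i * pp a lam j * (phi a lam j * f j)
        = phi a lam i / lam * Mop a f i := by
      rw [Mop_eq, Finset.mul_sum]
      apply Finset.sum_congr rfl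
      intro j _
      have h4 := lam_pp_phi g j
      have h5 : pp a lam j * phi a lam j = a j / lam := by
        rw [eq_div_iff hlam.ne']
        linarith
      calc phi a lam i * pp a lam j * (phi a lam j * f j)
          = phi a lam i * (pp a lam j * phi a lam j) * f j := by ring
        _ = phi a lam i / lam * (a j * f j) := by rw [h5]; ring
    rw [e1, e2, Real.log_mul (div_pos (phi_pos g i) hlam).ne' (hpos i).ne',
      Real.log_div (phi_pos g i).ne' hlam.ne'] at hJ
    exact hJ
  have hmphi : ∀ i, mm a lam i * phi a lam i = pp a lam i / WW a lam := by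
    intro i
    unfold mm
    have h6 := phi_mul g i
    calc pp a lam i * (1 - pp a lam i) / WW a lam * phi a lam i
        = pp a lam i * ((1 - pp a lam i) * phi a lam i) / WW a lam := by ring
      _ = pp a lam i / WW a lam := by rw [h6, mul_one]
  have hsum := Finset.sum_le_sum (fun i (_ : i ∈ (univ : Finset (Fin r))) =>
    mul_le_mul_of_nonneg_left (hpt i) (hm i).le)
  have hL : ∑ i, mm a lam i * (phi a lam i * (G - pp a lam i * gg i))
      = ∑ i, mm a lam i * gg i := by
    have h7 : ∀ i, mm a lam i * (phi a lam i * (G - pp a lam i * gg i))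
        = (pp a lam i * G - pp a lam i ^ 2 * gg i) / WW a lam := by
      intro i
      rw [← mul_assoc, hmphi]
      ring
    have h8 : ∀ i, mm a lam i * gg i
        = (pp a lam i * gg i - pp a lam i ^ 2 * gg i) / WW a lam := by
      intro i
      unfold mm
      ring
    rw [Finset.sum_congr rfl (fun i _ => h7 i), Finset.sum_congr rfl (fun i _ => h8 i),
      ← Finset.sum_div, ← Finset.sum_div, Finset.sum_sub_distrib, Finset.sum_sub_distrib,
      ← Finset.sum_mul, sum_pp g, one_mul]
  have hR : ∑ i, mm a lam i * (Real.log (phi a lam i) - Real.log lam + Real.log (Mop a f i))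
      = ∑ i, mm a lam i * Real.log (phi a lam i) - Real.log lam
        + ∑ i, mm a lam i * Real.log (Mop a f i) := by
    have h9 : ∀ i, mm a lam i * (Real.log (phi a lam i) - Real.log lam + Real.log (Mop a f i))
        = mm a lam i * Real.log (phi a lam i) - mm a lam i * Real.log lam
          + mm a lam i * Real.log (Mop a f i) := fun i => by ring
    rw [Finset.sum_congr rfl (fun i _ => h9 i), Finset.sum_add_distrib,
      Finset.sum_sub_distrib, ← Finset.sum_mul, hms, one_mul]
  have hL2 : ∑ i, mm a lam i * gg i = ∑ i, mm a lam i * Real.log (phi a lam i)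
      + ∑ i, mm a lam i * Real.log (f i) := by
    rw [← Finset.sum_add_distrib]
    apply Finset.sum_congr rfl
    intro i _
    rw [hgg]
    ring
  rw [hL, hR, hL2] at hsum
  unfold EE
  linarith

theorem base (h : MFACTS) : BASE := by
  intro r a lam g f hf
  obtain ⟨hW, hpp, hm, hms, -⟩ := h r a lam g
  have hlam := g.lam_pos
  have hJ := strictConcaveOn_log_Ioi.concaveOn.le_map_sum (t := univ)
    (w := fun j => mm a lam j) (p := fun j => lam * WW a lam * phi a lam j ^ 2 * f j)
    (fun j _ => (hm j).le) hms
    (fun j _ => Set.mem_Ioi.mpr (by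
      have := phi_pos g j
      have := hf j
      positivity))
  simp only [smul_eq_mul] at hJ
  have e2 : ∑ j, mm a lam j * (lam * WW a lam * phi a lam j ^ 2 * f j) = ∑ j, a j * f j := by
    apply Finset.sum_congr rfl
    intro j _
    unfold mm
    have h1 := phi_mul g j
    have h2 := lam_pp_phi g j
    calc pp a lam j * (1 - pp a lam j) / WW a lam * (lam * WW a lam * phi a lam j ^ 2 * f j)
        = (lam * (pp a lam j * phi a lam j)) * ((1 - pp a lam j) * phi a lam j)
            * (WW a lam / WW a lam) * f j := by ring
      _ = a j * f j := by rw [h1, h2, div_self hW.ne']; ring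
  have e1 : ∑ j, mm a lam j * Real.log (lam * WW a lam * phi a lam j ^ 2 * f j)
      = Real.log lam + Real.log (WW a lam) + 2 * EE a lam (fun i => Real.log (phi a lam i))
      + EE a lam (fun i => Real.log (f i)) := by
    have h3 : ∀ j, mm a lam j * Real.log (lam * WW a lam * phi a lam j ^ 2 * f j)
        = mm a lam j * (Real.log lam + Real.log (WW a lam))
          + 2 * (mm a lam j * Real.log (phi a lam j)) + mm a lam j * Real.log (f j) := by
      intro j
      have hp := phi_pos g j
      rw [Real.log_mul (by positivity) (hf j).ne', Real.log_mul (by positivity) (by positivity),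
        Real.log_mul hlam.ne' hW.ne', Real.log_pow]
      push_cast
      ring
    rw [Finset.sum_congr rfl (fun i _ => h3 i), Finset.sum_add_distrib, Finset.sum_add_distrib,
      ← Finset.sum_mul, hms, one_mul, ← Finset.mul_sum]
    unfold EE
    ring
  rw [e1, e2] at hJ
  exact hJ

end Pool.W114.HLJ
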