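import Pool.Agent.W114.PQ.Stm

set_option autoImplicit false

/-!
# Project HL: symmetric designs with fixed `lam`, not a square

Variant of project PQ (`Pool.Agent.W114.PQ.Stm`): here even the primes do not pass.  MAIN: if
`τ + β/2 ≥ 3/2`, at most `C X (log X)^(ε - 9/8)` integers `n ≤ X` pass the tests.

Changes in the data: the congruence `p % 4 = 3` is replaced by a predicate `Bd`, the axiom `ord`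
(`T q n → n ^ m = 1`) by `nz` (`T q n → ¬ q ∣ n`), and there are primes `Q` with the property that
for every cofactor `g` at least one residue class of primes `p` is excluded for `g * p`.

Every task is one `Prop` below (`S_...`); a task proves it from earlier ones given as hypotheses.
-/

namespace Pool.Agent.W114.HL

open Finset Filter Topology
open Pool.Agent.H951R4.OD (ch PI Ex)
open Pool.Agent.W114.PQ (wX EP)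

/-- `T q n`: the prime `q` tests the integer `n`; `ρ q / q` is the probability of this. -/
structure Dat where
  c0 : ℕ
  e : ℝ
  Δ : ℤ
  κ : ℝ
  τ : ℝ
  β : ℝ
  ρ : ℕ → ℝ
  T : ℕ → ℕ → Prop
  Bd : ℕ → Prop
  Q : ℕ → Prop

open scoped Classical in
structure Ax (D : Dat) : Prop where
  c0_pos : 0 < D.c0
  two : 2 ∣ D.c0
  e01 : D.e = 0 ∨ D.e = 1
  neg : D.Δ < 0
  κ1 : 1 ≤ D.κ
  τ1 : 1 ≤ D.τ
  β01 : D.β = 0 ∨ D.β = 1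
  rho_low : ∀ q : ℕ, q.Prime → ¬ q ∣ D.c0 → 1 + D.e * ch D.Δ q ≤ D.ρ q
  rho_up : ∀ q : ℕ, 0 ≤ D.ρ q ∧ D.ρ q ≤ D.κ
  per : ∀ q n : ℕ, q.Prime → (D.T q (n + q ^ 2) ↔ D.T q n)
  nz : ∀ q n : ℕ, q.Prime → ¬ q ∣ D.c0 → D.T q n → ¬ q ∣ n
  cnt : ∀ q : ℕ, q.Prime → ¬ q ∣ D.c0 →
    |(((range (q ^ 2)).filter (fun n => D.T q n)).card : ℝ) - q * D.ρ q| ≤ D.κ
  mert : ∃ C : ℝ, ∀ y z : ℕ, 2 ≤ y → y ≤ z →
    |∑ q ∈ PI y z, D.ρ q / q - D.τ * Real.log (Real.log z / Real.log y)| ≤ C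
  bad : D.β = 1 → ∃ C : ℝ, ∀ y z : ℕ, 2 ≤ y → y ≤ z →
    1 / 2 * Real.log (Real.log z / Real.log y) - C ≤
      ∑ p ∈ (PI y z).filter (fun p => D.Bd p), 1 / (p : ℝ)
  fixQ : ∀ q g : ℕ, q.Prime → ¬ q ∣ D.c0 → D.Q q → ¬ q ∣ g →
    (q : ℝ) - D.κ ≤ (((range (q ^ 2)).filter
      (fun n => D.T q (g * n) ∧ ∃ j : ℕ, (n : ZMod q) ^ j = -1)).card : ℝ)
  mertQ : ∃ C : ℝ, ∀ y z : ℕ, 2 ≤ y → y ≤ z →
    1 / 8 * Real.log (Real.log z / Real.log y) - C ≤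
      ∑ q ∈ (PI y z).filter (fun q => D.Q q), 1 / (q : ℝ)

/-- `n` passes all tests -/
def Pass (D : Dat) (n : ℕ) : Prop :=
  (∀ p q j : ℕ, Ex D.c0 n p → q.Prime → ¬ q ∣ D.c0 → D.T q n → (p : ZMod q) ^ j ≠ -1) ∧
  (D.β = 1 → ∀ p : ℕ, Ex D.c0 n p → ¬ D.Bd p)

/-- the exponent for `k` primes -/
noncomputable def Dk (D : Dat) (k : ℕ) : ℝ := D.τ + D.β / 2 - D.κ / 2 ^ k

/-! ## A. Tools -/

open scoped Classical in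
/-- Task MN (means), as in PQ. -/
def S_MN : Prop := ∀ D : Dat, Ax D → ∀ q a : ℕ, q.Prime → ¬ q ∣ D.c0 →
  (∀ n : ℕ, D.T q n → ¬ q ∣ n) ∧
  (Nat.Coprime a q → |(∑ n ∈ range (q ^ 2), (if D.T q (a * n) then (1 : ℝ) else 0)) / (q : ℝ) ^ 2 -
    D.ρ q / q| ≤ D.κ / (q : ℝ) ^ 2)

open scoped Classical in
/-- Task BK, as in PQ. -/
def S_BK : Prop := ∀ D : Dat, Ax D → ∀ k : ℕ, ∃ C : ℝ, 3 ≤ C ∧ ∀ ps : Finset ℕ, ps.card = k →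
  (∀ p ∈ ps, p.Prime) → ∀ y z : ℕ, C * (∏ p ∈ ps, (p : ℝ)) ^ 2 ≤ y → y ≤ z →
    (D.τ - D.κ / 2 ^ k) * Real.log (Real.log z / Real.log y) - C ≤
      ∑ q ∈ (PI y z).filter (fun q => ¬ q ∣ D.c0 ∧ ∃ p ∈ ps, ch (p : ℤ) q = -1), D.ρ q / q

open scoped Classical in
/-- Task B1, as in PQ. -/
def S_B1 : Prop := ∀ D : Dat, Ax D → ∃ C : ℝ, 3 ≤ C ∧ ∀ p : ℕ, p.Prime →
  ∀ y z : ℕ, C * (p : ℝ) ^ 2 ≤ y → y ≤ z →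
    1 / 2 * Real.log (Real.log z / Real.log y) - C ≤
      ∑ q ∈ (PI y z).filter (fun q => ¬ q ∣ D.c0 ∧ ch (p : ℤ) q = -1), D.ρ q / q

/-! ## B. Many small exact prime divisors -/

/-- Task CA, as in PQ. -/
def S_CA : Prop := ∀ D : Dat, Ax D → ∀ k : ℕ, 1 ≤ k → 1 < Dk D k → ∃ C : ℝ, 1 ≤ C ∧
  ∀ w z X : ℕ, 3 ≤ w → w ≤ z → C * Real.log z * (1 + Real.log (Real.log z)) ≤ Real.log X →
  ∀ ps : Finset ℕ, ps.card = k → (∀ p ∈ ps, p.Prime ∧ p ≤ w) →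
    ({n : ℕ | 1 ≤ n ∧ n ≤ X ∧ Pass D n ∧ (∀ p ∈ ps, Ex D.c0 n p) ∧
      ∀ p : ℕ, Ex D.c0 n p → p ≤ ps.sup id → p ∈ ps}.ncard : ℝ) ≤
    C * (X / ∏ p ∈ ps, (p : ℝ)) * (Real.log w) ^ (Dk D k - 1) * (Real.log z) ^ (-Dk D k)

/-- Task A: at least `k` exact prime divisors up to `w = exp ((log X)^(3/4))`, with a rate. -/
def S_A : Prop := ∀ D : Dat, Ax D → 3 / 2 ≤ D.τ + D.β / 2 → ∀ ε : ℝ, 0 < ε → ∀ k : ℕ, 1 ≤ k →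
  D.κ / 2 ^ k ≤ ε → D.κ / 2 ^ k < 1 / 2 → ∃ C : ℝ, 0 < C ∧ ∀ X : ℕ, 3 ≤ X →
    ({n : ℕ | 1 ≤ n ∧ n ≤ X ∧ Pass D n ∧ k ≤ (EP D.c0 (wX X) n).card}.ncard : ℝ) ≤
      C * X * (Real.log X) ^ (ε - 9 / 8)

/-! ## C. Two large exact prime divisors -/

open scoped Classical in
/-- Task CB, as in PQ. -/
def S_CB : Prop := ∀ D : Dat, Ax D → ∀ k : ℕ, ∃ C : ℝ, 1 ≤ C ∧ ∀ X Y Q : ℕ, 3 ≤ Y → Y ≤ Q →
  C * Real.log Q * (1 + Real.log (Real.log Q)) ≤ Real.log X →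
  ∀ (ps : Finset ℕ) (r : ℕ), ps.card ≤ k → (∀ p ∈ ps, p.Prime) → r.Prime → Q < r → r ∉ ps →
  ((∏ p ∈ ps, p) * r) ^ 4 ≤ X ^ 3 →
  |∑ q ∈ PI Y Q, (if q ∣ D.c0 then 0 else D.ρ q) * ch (r : ℤ) q / q| ≤ 1 / 2 →
    ({n : ℕ | 1 ≤ n ∧ n ≤ X ∧ Pass D n ∧ (∀ p ∈ ps, Ex D.c0 n p) ∧ Ex D.c0 n r ∧
      ∀ p : ℕ, Ex D.c0 n p → p ≤ Q → p ∈ ps}.ncard : ℝ) ≤
    C * (X / ((∏ p ∈ ps, (p : ℝ)) * r)) * (Real.log Q) ^ (-(3 / 2) : ℝ) *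
      (Real.log Y) ^ (1 / 2 : ℝ)

/-- Task B: fewer than `k` exact prime divisors up to `w`, at least two above, with a rate. -/
def S_B : Prop := ∀ D : Dat, Ax D → ∀ ε : ℝ, 0 < ε → ∀ k : ℕ, ∃ C : ℝ, 0 < C ∧ ∀ X : ℕ, 3 ≤ X →
  ({n : ℕ | 1 ≤ n ∧ n ≤ X ∧ Pass D n ∧ (EP D.c0 (wX X) n).card < k ∧
    ∃ r r' : ℕ, wX X < r ∧ r < r' ∧ Ex D.c0 n r ∧ Ex D.c0 n r'}.ncard : ℝ) ≤
    C * X * (Real.log X) ^ (ε - 9 / 8)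

/-! ## D. One large exact prime divisor -/

/-- Task CC, as in PQ. -/
def S_CC : Prop := ∀ D : Dat, Ax D → ∃ C : ℝ, 1 ≤ C ∧ ∀ w z X a t : ℕ, 3 ≤ w → w ≤ z →
  C * Real.log z * (1 + Real.log (Real.log z)) ≤ Real.log X → 1 ≤ a → a ^ 4 ≤ X →
  t ≤ w → Ex D.c0 a t →
    ({p : ℕ | p.Prime ∧ t < p ∧ p ≤ X / a ∧ Pass D (a * p)}.ncard : ℝ) ≤
    C * (1 + (a.primeFactors.card : ℝ)) ^ (D.κ : ℝ) * (X / a) * (Real.log w) ^ (1 / 2 : ℝ) *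
      (Real.log z) ^ (-(3 / 2) : ℝ)

/-- Task C1: one exact prime divisor above `w`, and between `1` and `k - 1` below, with a rate. -/
def S_C1 : Prop := ∀ D : Dat, Ax D → ∀ ε : ℝ, 0 < ε → ∀ k : ℕ, ∃ C : ℝ, 0 < C ∧ ∀ X : ℕ, 3 ≤ X →
  ({n : ℕ | 1 ≤ n ∧ n ≤ X ∧ Pass D n ∧ (EP D.c0 (wX X) n).card < k ∧
    (EP D.c0 (wX X) n).Nonempty ∧
    ∃ r : ℕ, wX X < r ∧ Ex D.c0 n r ∧ ∀ r' : ℕ, wX X < r' → Ex D.c0 n r' → r' = r}.ncard : ℝ) ≤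
    C * X * (Real.log X) ^ (ε - 9 / 8)

/-- Task CP (new): the count for a given cofactor `g`: primes `p ∈ (z, X / g]`; the sieve removes the
class `0` modulo every prime up to `z` and one further class modulo every prime of `Q`. -/
def S_CP : Prop := ∀ D : Dat, Ax D → ∃ C : ℝ, 1 ≤ C ∧ ∀ z X g : ℕ, 3 ≤ z →
  C * Real.log z * (1 + Real.log (Real.log z)) ≤ Real.log X → 1 ≤ g → g ^ 4 ≤ X →
    ({p : ℕ | p.Prime ∧ z < p ∧ p ≤ X / g ∧ Ex D.c0 (g * p) p ∧ Pass D (g * p)}.ncard : ℝ) ≤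
    C * (1 + (g.primeFactors.card : ℝ)) ^ (D.κ + 1 : ℝ) * (X / g) * (Real.log z) ^ (-(9 / 8) : ℝ)

/-- Task C2: exactly one exact prime divisor, above `w`, with a rate. -/
def S_C2 : Prop := ∀ D : Dat, Ax D → ∀ ε : ℝ, 0 < ε → ∃ C : ℝ, 0 < C ∧ ∀ X : ℕ, 3 ≤ X →
  ({n : ℕ | 1 ≤ n ∧ n ≤ X ∧ Pass D n ∧
    ∃ r : ℕ, wX X < r ∧ Ex D.c0 n r ∧ ∀ r' : ℕ, Ex D.c0 n r' → r' = r}.ncard : ℝ) ≤
    C * X * (Real.log X) ^ (ε - 9 / 8)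

/-! ## E. No large exact prime divisor -/

/-- Task E: fewer than `k` exact prime divisors up to `w` and none above, with a rate. -/
def S_E : Prop := ∀ c0 : ℕ, 0 < c0 → ∀ k : ℕ, ∃ C : ℝ, 0 < C ∧ ∀ X : ℕ, 3 ≤ X →
  ({n : ℕ | 1 ≤ n ∧ n ≤ X ∧ (EP c0 (wX X) n).card < k ∧
    ∀ r : ℕ, wX X < r → ¬ Ex c0 n r}.ncard : ℝ) ≤ C * X * (Real.log X) ^ (-(9 / 8) : ℝ)

/-! ## F. Conclusion -/

/-- The main theorem. -/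
def S_MAIN : Prop := ∀ D : Dat, Ax D → 3 / 2 ≤ D.τ + D.β / 2 → ∀ ε : ℝ, 0 < ε →
  ∃ C : ℝ, 0 < C ∧ ∀ X : ℕ, 3 ≤ X →
    ({n : ℕ | 1 ≤ n ∧ n ≤ X ∧ Pass D n}.ncard : ℝ) ≤ C * X * (Real.log X) ^ (ε - 9 / 8)

/-! ## G. Data for symmetric designs -/

/-- Symmetric `(v, k, lam)` designs, `n = k - lam`: `lam * v = n² + (2 lam - 1) n + lam²`. The sign `s`
is `1` for `v % 4 = 1` and `-1` for `v % 4 = 3`. -/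
noncomputable def datH (lam : ℕ) (s : ℤ) : Dat where
  c0 := 2 * lam * (4 * lam - 1)
  e := 1
  Δ := 1 - 4 * (lam : ℤ)
  κ := 2
  τ := 1
  β := 1
  ρ := fun q => 1 + ch (1 - 4 * (lam : ℤ)) q
  T := fun q n => q ∣ n ^ 2 + (2 * lam - 1) * n + lam ^ 2 ∧
    ¬ q ^ 2 ∣ n ^ 2 + (2 * lam - 1) * n + lam ^ 2
  Bd := fun p => ch (s * (lam : ℤ)) p = -1
  Q := fun q => q % 4 = 1 ∧ ch (lam : ℤ) q = -1 ∧ ch (1 - 4 * (lam : ℤ)) q = 1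

/-- Task DM (Mertens type sums). -/
def S_DM : Prop := ∀ lam : ℕ, 2 ≤ lam → ¬ IsSquare lam → ∀ s : ℤ, (s = 1 ∨ s = -1) →
  (∃ C : ℝ, ∀ y z : ℕ, 2 ≤ y → y ≤ z →
    |∑ q ∈ PI y z, (datH lam s).ρ q / q - Real.log (Real.log z / Real.log y)| ≤ C) ∧
  (∃ C : ℝ, ∀ y z : ℕ, 2 ≤ y → y ≤ z →
    1 / 2 * Real.log (Real.log z / Real.log y) - C ≤
      ∑ p ∈ (PI y z).filter (fun p => ch (s * (lam : ℤ)) p = -1), 1 / (p : ℝ)) ∧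
  (∃ C : ℝ, ∀ y z : ℕ, 2 ≤ y → y ≤ z →
    1 / 8 * Real.log (Real.log z / Real.log y) - C ≤
      ∑ q ∈ (PI y z).filter (fun q => q % 4 = 1 ∧ ch (lam : ℤ) q = -1 ∧
        ch (1 - 4 * (lam : ℤ)) q = 1), 1 / (q : ℝ))

/-- Task DH: the axioms for `datH`. -/
def S_DH : Prop := ∀ lam : ℕ, 2 ≤ lam → ¬ IsSquare lam → ∀ s : ℤ, (s = 1 ∨ s = -1) →
  Ax (datH lam s)

end Pool.Agent.W114.HL
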